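import Mathlib

namespace Pool.Agent.Results.MP_8292e8_an.SquareNotConvexCyclic

open Set Filter Topology

/-- A map `T` of a real normed space (a complex space being viewed as a real one) is
convex-cyclic when the convex hull of the orbit `{T^n x : n ≥ 0}` of some vector `x` is dense. -/
def ConvexCyclic {X : Type*} [NormedAddCommGroup X] [NormedSpace ℝ X] (T : X → X) : Prop :=
  ∃ x : X, Dense (convexHull ℝ (Set.range fun n : ℕ => T^[n] x))

section generic

variable {𝕜 : Type*} [RCLike 𝕜]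
variable {X : Type*} [NormedAddCommGroup X] [NormedSpace 𝕜 X] [NormedSpace ℝ X]
  [IsScalarTower ℝ 𝕜 X]

/-- Hahn-Banach: separating a vector from a closed subspace. -/
lemma exists_functional (p : Submodule 𝕜 X) (hp : IsClosed (p : Set X)) {y : X} (hy : y ∉ p) :
    ∃ f : StrongDual 𝕜 X, f y = 1 ∧ ∀ z ∈ p, f z = 0 := by
  have hconv : Convex ℝ (p : Set X) := by
    have := (p.restrictScalars ℝ).convex
    simpa using this
  obtain ⟨f, u, hfu, hub⟩ := RCLike.geometric_hahn_banach_point_closed (𝕜 := 𝕜) hconv hp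
    (x := y) (by simpa using hy)
  have h0 : ∀ z ∈ p, f z = 0 := by
    intro z hz
    by_contra hne
    have hpos : 0 < ‖f z‖ ^ 2 := by positivity
    obtain ⟨N, hN⟩ := exists_nat_gt (-u / ‖f z‖ ^ 2)
    have hmem : (-(N : 𝕜) * (starRingEnd 𝕜) (f z)) • z ∈ (p : Set X) := p.smul_mem _ hz
    have h1 := hub _ hmem
    have h2 : f ((-(N : 𝕜) * (starRingEnd 𝕜) (f z)) • z) = ((-(N : ℝ) * ‖f z‖ ^ 2 : ℝ) : 𝕜) := by
      rw [map_smul, smul_eq_mul, mul_assoc, RCLike.conj_mul]
      push_cast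
      ring
    rw [h2, RCLike.ofReal_re] at h1
    rw [div_lt_iff₀ hpos] at hN
    linarith
  have hu : u < 0 := by simpa using hub 0 p.zero_mem
  have hne : f y ≠ 0 := by
    intro h
    rw [h] at hfu
    simp at hfu
    linarith
  refine ⟨(f y)⁻¹ • f, ?_, ?_⟩
  · simp [hne]
  · intro z hz
    simp [h0 z hz]

/-- A sequence with dense span, together with functionals in triangular position, such that the
first functional kills all the later vectors. -/
lemma exists_system [TopologicalSpace.SeparableSpace X] [Nontrivial X] :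
    ∃ (y : ℕ → X) (f : ℕ → StrongDual 𝕜 X),
      Dense (Submodule.span 𝕜 (Set.range y) : Set X) ∧
      (∀ m n, m < n → f n (y m) = 0) ∧
      (∀ n, f n (y n) = 1 ∨ (f n = 0 ∧ y n ∈ Submodule.span 𝕜 (y '' Set.Iio n))) ∧
      f 0 (y 0) = 1 ∧ (∀ n, n ≠ 0 → f 0 (y n) = 0) := by
  obtain ⟨u0, hu0⟩ := exists_ne (0 : X)
  obtain ⟨g, hg1, -⟩ := exists_functional (𝕜 := 𝕜) (⊥ : Submodule 𝕜 X)
    (by simp) (y := u0) (by simpa using hu0)
  obtain ⟨d, hd⟩ := TopologicalSpace.exists_dense_seq X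
  let y : ℕ → X := fun n => Nat.casesOn n u0 (fun k => d k - g (d k) • u0)
  have hy0 : y 0 = u0 := rfl
  have hyS : ∀ k, y (k + 1) = d k - g (d k) • u0 := fun k => rfl
  have hgy : ∀ n, n ≠ 0 → g (y n) = 0 := by
    intro n hn
    obtain ⟨k, rfl⟩ := Nat.exists_eq_succ_of_ne_zero hn
    rw [Nat.succ_eq_add_one, hyS]
    simp [hg1]
  have hdense : Dense (Submodule.span 𝕜 (Set.range y) : Set X) := by
    refine hd.mono ?_
    rintro _ ⟨k, rfl⟩
    have h1 : d k = y (k + 1) + g (d k) • y 0 := by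
      rw [hyS, hy0]; abel
    rw [h1]
    exact Submodule.add_mem _ (Submodule.subset_span ⟨k + 1, rfl⟩)
      (Submodule.smul_mem _ _ (Submodule.subset_span ⟨0, rfl⟩))
  have hex : ∀ n, ∃ h : StrongDual 𝕜 X, (∀ m, m < n → h (y m) = 0) ∧
      (h (y n) = 1 ∨ (h = 0 ∧ y n ∈ Submodule.span 𝕜 (y '' Set.Iio n))) := by
    intro n
    by_cases hn : y n ∈ Submodule.span 𝕜 (y '' Set.Iio n)
    · exact ⟨0, fun m _ => by simp, Or.inr ⟨rfl, hn⟩⟩
    · have : FiniteDimensional 𝕜 (Submodule.span 𝕜 (y '' Set.Iio n)) :=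
        FiniteDimensional.span_of_finite 𝕜 ((Set.finite_Iio n).image y)
      obtain ⟨h, h1, h2⟩ := exists_functional (𝕜 := 𝕜) (Submodule.span 𝕜 (y '' Set.Iio n))
        (Submodule.closed_of_finiteDimensional _) hn
      exact ⟨h, fun m hm => h2 _ (Submodule.subset_span ⟨m, hm, rfl⟩), Or.inl h1⟩
  choose h hh1 hh2 using hex
  let f : ℕ → StrongDual 𝕜 X := fun n => if n = 0 then g else h n
  have hf0 : f 0 = g := by simp [f]
  have hfn : ∀ n, n ≠ 0 → f n = h n := by intro n hn; simp [f, hn]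
  refine ⟨y, f, hdense, ?_, ?_, ?_, ?_⟩
  · intro m n hmn
    rw [hfn n (by omega)]
    exact hh1 n m hmn
  · intro n
    rcases Nat.eq_zero_or_pos n with rfl | hn
    · left; rw [hf0, hy0]; exact hg1
    · rw [hfn n (by omega)]
      exact hh2 n
  · rw [hf0, hy0]; exact hg1
  · intro n hn
    rw [hf0]; exact hgy n hn

/-- The operator `A = 2 + K`, with `K` nuclear and triangular. -/
lemma exists_operator [CompleteSpace X] [TopologicalSpace.SeparableSpace X] [Nontrivial X] :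
    ∃ (A : X →L[𝕜] X) (μ : ℕ → ℝ) (v : ℕ → X) (f0 : StrongDual 𝕜 X),
      (∀ n, 1 < μ n) ∧ (∀ n, μ (n + 1) < μ n) ∧ (∀ n, A (v n) = (μ n : 𝕜) • v n) ∧
      Dense (Submodule.span 𝕜 (Set.range v) : Set X) ∧
      (∃ z, f0 z = 1) ∧ (∀ z, f0 (A z) = (μ 0 : 𝕜) * f0 z) := by
  obtain ⟨y, f, hdense, htri, hdiag, hf00, hf0⟩ := exists_system (𝕜 := 𝕜) (X := X)
  let ε : ℕ → ℝ := fun n => (1 / 2) ^ n * ∏ i ∈ Finset.range (n + 1), (1 + ‖f i‖ * ‖y i‖)⁻¹
  have hfac : ∀ i, 0 < (1 + ‖f i‖ * ‖y i‖)⁻¹ := fun i => by positivity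
  have hfac1 : ∀ i, (1 + ‖f i‖ * ‖y i‖)⁻¹ ≤ 1 := fun i => by
    apply inv_le_one_of_one_le₀
    have : 0 ≤ ‖f i‖ * ‖y i‖ := by positivity
    linarith
  have hεpos : ∀ n, 0 < ε n := fun n => by
    have : 0 < ∏ i ∈ Finset.range (n + 1), (1 + ‖f i‖ * ‖y i‖)⁻¹ :=
      Finset.prod_pos fun i _ => hfac i
    simp only [ε]
    positivity
  have hεsucc : ∀ n, ε (n + 1) < ε n := fun n => by
    have h1 : ε (n + 1) = ε n * ((1 / 2) * (1 + ‖f (n + 1)‖ * ‖y (n + 1)‖)⁻¹) := by
      simp only [ε]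
      rw [Finset.prod_range_succ _ (n + 1)]
      ring
    rw [h1]
    have h2 := hεpos n
    have h3 := hfac1 (n + 1)
    have h4 := hfac (n + 1)
    nlinarith
  have hεanti : StrictAnti ε := strictAnti_nat_of_succ_lt hεsucc
  have hεbound : ∀ n, ε n * (‖f n‖ * ‖y n‖) ≤ (1 / 2) ^ n := fun n => by
    simp only [ε]
    rw [Finset.prod_range_succ]
    have h1 : 0 ≤ ∏ i ∈ Finset.range n, (1 + ‖f i‖ * ‖y i‖)⁻¹ :=
      Finset.prod_nonneg fun i _ => (hfac i).le
    have h2 : ∏ i ∈ Finset.range n, (1 + ‖f i‖ * ‖y i‖)⁻¹ ≤ 1 :=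
      Finset.prod_le_one (fun i _ => (hfac i).le) fun i _ => hfac1 i
    have h3 : (1 + ‖f n‖ * ‖y n‖)⁻¹ * (‖f n‖ * ‖y n‖) ≤ 1 := by
      have h5 : 0 ≤ ‖f n‖ * ‖y n‖ := by positivity
      rw [inv_mul_le_iff₀ (by positivity)]
      linarith
    have h4 : 0 ≤ (1 + ‖f n‖ * ‖y n‖)⁻¹ * (‖f n‖ * ‖y n‖) := by positivity
    have h5 : (0 : ℝ) ≤ (1 / 2) ^ n := by positivity
    calc (1 / 2 : ℝ) ^ n * ((∏ i ∈ Finset.range n, (1 + ‖f i‖ * ‖y i‖)⁻¹) *
          (1 + ‖f n‖ * ‖y n‖)⁻¹) * (‖f n‖ * ‖y n‖)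
        = (1 / 2 : ℝ) ^ n * ((∏ i ∈ Finset.range n, (1 + ‖f i‖ * ‖y i‖)⁻¹) *
          ((1 + ‖f n‖ * ‖y n‖)⁻¹ * (‖f n‖ * ‖y n‖))) := by ring
      _ ≤ (1 / 2 : ℝ) ^ n * (1 * 1) := by gcongr
      _ = (1 / 2) ^ n := by ring
  let T : ℕ → (X →L[𝕜] X) := fun n => (ε n : 𝕜) • (f n).smulRight (y n)
  have hTsum : Summable T := by
    refine Summable.of_norm_bounded (g := fun n => (1 / 2 : ℝ) ^ n)
      (summable_geometric_of_lt_one (by norm_num) (by norm_num)) ?_
    intro n
    simp only [T]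
    rw [norm_smul, ContinuousLinearMap.norm_smulRight_apply, RCLike.norm_ofReal,
      abs_of_pos (hεpos n)]
    exact hεbound n
  obtain ⟨K, hK⟩ := hTsum
  have hKz : ∀ z, HasSum (fun n => (ε n : 𝕜) • (f n z) • y n) (K z) := by
    intro z
    have := (ContinuousLinearMap.apply 𝕜 X z).hasSum hK
    simpa [T] using this
  let V : ℕ → Submodule 𝕜 X := fun n => Submodule.span 𝕜 (y '' Set.Iio n)
  have hKy : ∀ n, K (y n) - (ε n : 𝕜) • y n ∈ V n := by
    intro n
    have h1 : K (y n) = ∑ j ∈ Finset.range (n + 1), (ε j : 𝕜) • (f j (y n)) • y j := by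
      refine (hKz (y n)).unique (hasSum_sum_of_ne_finset_zero ?_)
      intro j hj
      rw [htri n j (by simpa using hj)]
      simp
    rw [h1, Finset.sum_range_succ, add_sub_assoc]
    refine Submodule.add_mem _ (Submodule.sum_mem _ fun j hj => ?_) ?_
    · exact Submodule.smul_mem _ _ (Submodule.smul_mem _ _
        (Submodule.subset_span ⟨j, by simpa using hj, rfl⟩))
    · rcases hdiag n with h | ⟨-, h⟩
      · rw [h]; simp
      · exact Submodule.sub_mem _ (Submodule.smul_mem _ _ (Submodule.smul_mem _ _ h))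
          (Submodule.smul_mem _ _ h)
  have hVsucc : ∀ m, y '' Set.Iio (m + 1) = insert (y m) (y '' Set.Iio m) := by
    intro m
    rw [← Set.image_insert_eq]
    congr 1
    ext k
    simp only [Set.mem_Iio, Set.mem_insert_iff]
    omega
  have hsurj : ∀ n m, m ≤ n → ∀ z ∈ V m, ∃ w ∈ V m, K w - (ε n : 𝕜) • w = z := by
    intro n m
    induction m with
    | zero =>
      intro _ z hz
      have hz0 : z = 0 := by simpa [V] using hz
      exact ⟨0, Submodule.zero_mem _, by simp [hz0]⟩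
    | succ m ih =>
      intro hmn z hz
      simp only [V] at hz
      rw [hVsucc, Submodule.mem_span_insert] at hz
      obtain ⟨c, z', hz', rfl⟩ := hz
      have hδ : ((ε m : 𝕜) - (ε n : 𝕜)) ≠ 0 := by
        rw [sub_ne_zero]
        intro h
        have h' : ε m = ε n := by exact_mod_cast h
        have := hεanti.injective h'
        omega
      set δ : 𝕜 := (ε m : 𝕜) - (ε n : 𝕜) with hδdef
      obtain ⟨w', hw', hw'e⟩ := ih (by omega)
        (z' - (c / δ) • (K (y m) - (ε m : 𝕜) • y m))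
        (Submodule.sub_mem _ hz' (Submodule.smul_mem _ _ (hKy m)))
      refine ⟨(c / δ) • y m + w', ?_, ?_⟩
      · simp only [V]
        rw [hVsucc]
        exact Submodule.add_mem _ (Submodule.smul_mem _ _
          (Submodule.subset_span (Set.mem_insert _ _)))
          (Submodule.span_mono (Set.subset_insert _ _) hw')
      · have h1 : K ((c / δ) • y m + w') - (ε n : 𝕜) • ((c / δ) • y m + w')
            = (c / δ) • (K (y m) - (ε m : 𝕜) • y m) + ((c / δ) * δ) • y m
              + (K w' - (ε n : 𝕜) • w') := by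
          rw [map_add, map_smul, hδdef]
          module
        rw [h1, hw'e, div_mul_cancel₀ _ hδ]
        abel
  have hw : ∀ n, ∃ w ∈ V n, K w - (ε n : 𝕜) • w = K (y n) - (ε n : 𝕜) • y n :=
    fun n => hsurj n n le_rfl _ (hKy n)
  choose w hwV hwe using hw
  let v : ℕ → X := fun n => y n - w n
  have hKv : ∀ n, K (v n) = (ε n : 𝕜) • v n := by
    intro n
    have := hwe n
    simp only [v]
    rw [map_sub, smul_sub]
    rw [sub_eq_sub_iff_add_eq_add] at this ⊢
    rw [add_comm ((ε n : 𝕜) • y n) (K (w n)), this]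
  have hyv : ∀ n, y n ∈ Submodule.span 𝕜 (Set.range v) := by
    intro n
    induction n using Nat.strong_induction_on with
    | _ n ih =>
      have h1 : y n = v n + w n := by simp [v]
      rw [h1]
      refine Submodule.add_mem _ (Submodule.subset_span ⟨n, rfl⟩) ?_
      have h2 : V n ≤ Submodule.span 𝕜 (Set.range v) := by
        refine Submodule.span_le.2 ?_
        rintro _ ⟨i, hi, rfl⟩
        exact ih i hi
      exact h2 (hwV n)
  have hdensev : Dense (Submodule.span 𝕜 (Set.range v) : Set X) := by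
    refine hdense.mono ?_
    refine Submodule.span_le.2 ?_
    rintro _ ⟨i, rfl⟩
    exact hyv i
  have hf0K : ∀ z, f 0 (K z) = (ε 0 : 𝕜) * f 0 z := by
    intro z
    have h1 := (f 0).hasSum (hKz z)
    have h2 : HasSum (fun n => f 0 ((ε n : 𝕜) • (f n z) • y n)) (f 0 ((ε 0 : 𝕜) • (f 0 z) • y 0)) := by
      refine hasSum_single 0 ?_
      intro n hn
      simp [hf0 n hn]
    have h3 := h1.unique h2
    rw [h3, map_smul, map_smul, hf00]
    simp only [smul_eq_mul, mul_one]
  refine ⟨(2 : 𝕜) • ContinuousLinearMap.id 𝕜 X + K, fun n => 2 + ε n, v, f 0, ?_, ?_, ?_,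
    hdensev, ⟨y 0, hf00⟩, ?_⟩
  · intro n
    have := hεpos n
    linarith
  · intro n
    have := hεsucc n
    linarith
  · intro n
    simp only [add_apply, smul_apply,
      ContinuousLinearMap.id_apply, hKv]
    push_cast
    module
  · intro z
    simp only [add_apply, smul_apply,
      ContinuousLinearMap.id_apply, map_add, map_smul, hf0K]
    push_cast
    simp only [smul_eq_mul]
    ring

/-- A scalar multiple `ζ A` with `ζ` a fourth root of unity whose powers meet every open half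
plane (half line) is convex-cyclic. -/
lemma convexCyclic_smul [CompleteSpace X] (A : X →L[𝕜] X) (μ : ℕ → ℝ) (v : ℕ → X)
    (hμ1 : ∀ n, 1 < μ n) (hμ : ∀ n, μ (n + 1) < μ n)
    (hA : ∀ n, A (v n) = (μ n : 𝕜) • v n)
    (hv : Dense (Submodule.span 𝕜 (Set.range v) : Set X))
    (ζ : 𝕜) (h4 : ζ ^ 4 = 1) (hζ : ∀ c : 𝕜, c ≠ 0 → ∃ r : ℕ, 0 < RCLike.re (ζ ^ r * c)) :
    ConvexCyclic (fun z => ζ • A z) := by
  have hμanti : StrictAnti μ := strictAnti_nat_of_succ_lt hμ
  have hζn : ‖ζ‖ = 1 := by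
    have : ‖ζ‖ ^ 4 = 1 := by rw [← norm_pow, h4, norm_one]
    exact (pow_eq_one_iff_of_nonneg (norm_nonneg _) (by norm_num)).1 this
  let a : ℕ → ℝ := fun j => (1 / 2) ^ j * (1 + ‖v j‖)⁻¹
  have hapos : ∀ j, 0 < a j := fun j => by simp only [a]; positivity
  have hav : ∀ j, a j * ‖v j‖ ≤ (1 / 2) ^ j := fun j => by
    simp only [a]
    rw [mul_assoc]
    refine mul_le_of_le_one_right (by positivity) ?_
    rw [inv_mul_le_iff₀ (by positivity)]
    linarith
  have hgeo : Summable (fun j : ℕ => (1 / 2 : ℝ) ^ j) :=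
    summable_geometric_of_lt_one (by norm_num) (by norm_num)
  have hsum : Summable (fun j => (a j : 𝕜) • v j) := by
    refine Summable.of_norm_bounded hgeo ?_
    intro j
    rw [norm_smul, RCLike.norm_ofReal, abs_of_pos (hapos j)]
    exact hav j
  obtain ⟨x, hx⟩ := hsum
  refine ⟨x, ?_⟩
  set S : X → X := fun z => ζ • A z with hS
  have hiter : ∀ n, HasSum (fun j => (ζ * (μ j : 𝕜)) ^ n • ((a j : 𝕜) • v j)) (S^[n] x) := by
    intro n
    induction n with
    | zero => simpa using hx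
    | succ n ih =>
      rw [Function.iterate_succ_apply']
      have h1 := ((A.hasSum ih).const_smul ζ)
      have h2 : (fun j => ζ • A ((ζ * (μ j : 𝕜)) ^ n • ((a j : 𝕜) • v j)))
          = fun j => (ζ * (μ j : 𝕜)) ^ (n + 1) • ((a j : 𝕜) • v j) := by
        funext j
        rw [map_smul, map_smul, hA]
        simp only [smul_smul]
        congr 1
        ring
      rw [h2] at h1
      exact h1
  rw [dense_iff_closure_eq]
  by_contra hne
  obtain ⟨p, hp⟩ := (Set.ne_univ_iff_exists_notMem _).1 hne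
  obtain ⟨f, u, hfu, hup⟩ := RCLike.geometric_hahn_banach_closed_point (𝕜 := 𝕜)
    (convex_convexHull ℝ (Set.range fun n : ℕ => S^[n] x)).closure isClosed_closure hp
  have hbd : ∀ n, RCLike.re (f (S^[n] x)) < u := fun n =>
    hfu _ (subset_closure (subset_convexHull ℝ _ ⟨n, rfl⟩))
  -- some `f (v j)` is nonzero
  have hex : ∃ j, f (v j) ≠ 0 := by
    by_contra hall
    push Not at hall
    have hker : Dense (LinearMap.ker (f : X →ₗ[𝕜] 𝕜) : Set X) := by
      refine hv.mono ?_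
      refine Submodule.span_le.2 ?_
      rintro _ ⟨j, rfl⟩
      exact hall j
    have hcl : IsClosed (LinearMap.ker (f : X →ₗ[𝕜] 𝕜) : Set X) := by
      have : (LinearMap.ker (f : X →ₗ[𝕜] 𝕜) : Set X) = f ⁻¹' {0} := by
        ext z; simp
      rw [this]
      exact isClosed_singleton.preimage f.continuous
    have hf : ∀ z, f z = 0 := by
      intro z
      have hz : z ∈ (LinearMap.ker (f : X →ₗ[𝕜] 𝕜) : Set X) := by
        rw [← hcl.closure_eq]
        exact hker z
      simpa using hz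
    have h1 := hbd 0
    rw [hf] at h1 hup
    exact lt_irrefl _ (h1.trans hup)
  classical
  set j0 := Nat.find hex with hj0
  have hj0ne : f (v j0) ≠ 0 := Nat.find_spec hex
  have hj0lt : ∀ j, j < j0 → f (v j) = 0 := fun j hj => by
    have := Nat.find_min hex hj
    simpa using this
  let b : ℕ → 𝕜 := fun j => (a j : 𝕜) * f (v j)
  have hb0 : b j0 ≠ 0 := by
    have h1 : (a j0 : 𝕜) ≠ 0 := by exact_mod_cast (hapos j0).ne'
    exact mul_ne_zero h1 hj0ne
  have hbn : ∀ j, ‖b j‖ ≤ (1 / 2) ^ j * ‖f‖ := by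
    intro j
    simp only [b]
    rw [norm_mul, RCLike.norm_ofReal, abs_of_pos (hapos j)]
    calc a j * ‖f (v j)‖ ≤ a j * (‖f‖ * ‖v j‖) := by
          exact mul_le_mul_of_nonneg_left (f.le_opNorm _) (hapos j).le
      _ = (a j * ‖v j‖) * ‖f‖ := by ring
      _ ≤ (1 / 2) ^ j * ‖f‖ := by
          gcongr
          exact hav j
  have hF : ∀ n, HasSum (fun j => ζ ^ n * (μ j : 𝕜) ^ n * b j) (f (S^[n] x)) := by
    intro n
    have h1 := f.hasSum (hiter n)
    have h2 : (fun j => f ((ζ * (μ j : 𝕜)) ^ n • ((a j : 𝕜) • v j)))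
        = fun j => ζ ^ n * (μ j : 𝕜) ^ n * b j := by
      funext j
      rw [map_smul, map_smul]
      simp only [smul_eq_mul, b, mul_pow]
    rw [h2] at h1
    exact h1
  obtain ⟨M, hM⟩ : ∃ M, HasSum (fun j : ℕ => (1 / 2 : ℝ) ^ j * ‖f‖) M := (hgeo.mul_right ‖f‖)
  have hrem : ∀ n, ‖f (S^[n] x) - ζ ^ n * (μ j0 : 𝕜) ^ n * b j0‖ ≤ μ (j0 + 1) ^ n * M := by
    intro n
    have h1 := (hF n).sub (hasSum_ite_eq j0 (ζ ^ n * (μ j0 : 𝕜) ^ n * b j0))
    refine h1.norm_le_of_bounded (hM.mul_left (μ (j0 + 1) ^ n)) ?_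
    intro j
    have hμ0 : 0 < μ (j0 + 1) := by linarith [hμ1 (j0 + 1)]
    rcases lt_trichotomy j j0 with hj | hj | hj
    · have : b j = 0 := by simp [b, hj0lt j hj]
      rw [this, if_neg (by omega)]
      simp only [mul_zero, sub_zero, norm_zero]
      positivity
    · subst hj
      simp only [if_true, sub_self, norm_zero]
      positivity
    · rw [if_neg (by omega), sub_zero, norm_mul, norm_mul, norm_pow, norm_pow, hζn, one_pow,
        one_mul, RCLike.norm_ofReal, abs_of_pos (by linarith [hμ1 j])]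
      have h2 : μ j ≤ μ (j0 + 1) := hμanti.antitone (by omega)
      have h3 : 0 < μ j := by linarith [hμ1 j]
      gcongr
      exact hbn j
  obtain ⟨r, hr⟩ := hζ (b j0) hb0
  set δ := RCLike.re (ζ ^ r * b j0) with hδ
  have hμ0 : 0 < μ j0 := by linarith [hμ1 j0]
  have hμ0' : 0 < μ (j0 + 1) := by linarith [hμ1 (j0 + 1)]
  have hq : Tendsto (fun n : ℕ => (μ (j0 + 1) / μ j0) ^ n * M) atTop (𝓝 0) := by
    have := (tendsto_pow_atTop_nhds_zero_of_lt_one (r := μ (j0 + 1) / μ j0) (by positivity)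
      ((div_lt_one hμ0).2 (hμ j0))).mul_const M
    simpa using this
  have hbig : Tendsto (fun n : ℕ => μ j0 ^ n) atTop atTop :=
    tendsto_pow_atTop_atTop_of_one_lt (hμ1 j0)
  have he1 : ∀ᶠ n : ℕ in atTop, (μ (j0 + 1) / μ j0) ^ n * M < δ / 2 :=
    hq.eventually_lt_const (by linarith)
  have he2 : ∀ᶠ n : ℕ in atTop, 2 * |u| / δ + 1 ≤ μ j0 ^ n := hbig.eventually_ge_atTop _
  obtain ⟨N, hN⟩ := eventually_atTop.1 (he1.and he2)
  have hn := hN (4 * N + r) (by omega)
  set n := 4 * N + r with hndef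
  have hζpow : ζ ^ n = ζ ^ r := by
    rw [hndef, pow_add, pow_mul, h4, one_pow, one_mul]
  have h1 := hrem n
  rw [hζpow] at h1
  have h2 : RCLike.re (ζ ^ r * (μ j0 : 𝕜) ^ n * b j0) = μ j0 ^ n * δ := by
    have : ζ ^ r * (μ j0 : 𝕜) ^ n * b j0 = ((μ j0 ^ n : ℝ) : 𝕜) * (ζ ^ r * b j0) := by
      push_cast; ring
    rw [this, RCLike.re_ofReal_mul]
  have h3 : μ j0 ^ n * δ - RCLike.re (f (S^[n] x)) ≤ μ (j0 + 1) ^ n * M := by
    rw [← h2, ← map_sub]
    refine (RCLike.re_le_norm _).trans ?_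
    rw [norm_sub_rev]
    exact h1
  have h4' : μ (j0 + 1) ^ n * M = μ j0 ^ n * ((μ (j0 + 1) / μ j0) ^ n * M) := by
    rw [div_pow]
    field_simp
  have hpos : 0 < μ j0 ^ n := by positivity
  have h5 : μ j0 ^ n * (δ / 2) < RCLike.re (f (S^[n] x)) := by
    have h6 : μ j0 ^ n * ((μ (j0 + 1) / μ j0) ^ n * M) < μ j0 ^ n * (δ / 2) := by
      gcongr
      exact hn.1
    nlinarith
  have h6 : |u| + δ / 2 ≤ μ j0 ^ n * (δ / 2) := by
    have h7 := mul_le_mul_of_nonneg_right hn.2 (show 0 ≤ δ / 2 by linarith)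
    have h8 : (2 * |u| / δ + 1) * (δ / 2) = |u| + δ / 2 := by
      field_simp
    linarith
  have h7 := hbd n
  have h8 := le_abs_self u
  linarith

/-- A scalar multiple `ζ A` whose square has an eigenfunctional with eigenvalue of a suitable
argument has a square that is not convex-cyclic. -/
lemma not_convexCyclic_sq (A : X →L[𝕜] X) (m : ℝ) (f0 : StrongDual 𝕜 X)
    (hf1 : ∃ z, f0 z = 1) (hf : ∀ z, f0 (A z) = (m : 𝕜) * f0 z) (ζ : 𝕜)
    (hζ : ∀ c : 𝕜, ∃ β : 𝕜, β ≠ 0 ∧ ∀ n : ℕ, ∀ t : ℝ, 0 ≤ t →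
      0 ≤ RCLike.re (β * ((ζ ^ 2) ^ n * (t : 𝕜) * c))) :
    ¬ ConvexCyclic (fun z => ζ • A (ζ • A z)) := by
  rintro ⟨x, hx⟩
  obtain ⟨β, hβ, hβn⟩ := hζ (f0 x)
  have hiter : ∀ n, f0 ((fun z => ζ • A (ζ • A z))^[n] x)
      = (ζ ^ 2) ^ n * (((m ^ 2) ^ n : ℝ) : 𝕜) * f0 x := by
    intro n
    induction n with
    | zero => simp
    | succ n ih =>
      rw [Function.iterate_succ_apply']
      rw [map_smul, hf, map_smul, hf, ih]
      push_cast
      simp only [smul_eq_mul]
      ring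
  let H : Set X := {z | 0 ≤ RCLike.re (β * f0 z)}
  have hHclosed : IsClosed H := by
    refine isClosed_le continuous_const ?_
    exact RCLike.continuous_re.comp (continuous_const.mul f0.continuous)
  have hHconv : Convex ℝ H := by
    intro z hz z' hz' s t hs ht _
    simp only [H, Set.mem_ofPred_eq] at hz hz' ⊢
    have h1 : f0 (s • z + t • z') = (s : 𝕜) * f0 z + (t : 𝕜) * f0 z' := by
      have h2 : s • z = (s : 𝕜) • z := by
        rw [← RCLike.real_smul_eq_coe_smul (K := 𝕜)]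
      have h3 : t • z' = (t : 𝕜) • z' := by
        rw [← RCLike.real_smul_eq_coe_smul (K := 𝕜)]
      rw [h2, h3, map_add, map_smul, map_smul, smul_eq_mul, smul_eq_mul]
    rw [h1]
    have h4 : β * ((s : 𝕜) * f0 z + (t : 𝕜) * f0 z')
        = (s : 𝕜) * (β * f0 z) + (t : 𝕜) * (β * f0 z') := by ring
    rw [h4, map_add, RCLike.re_ofReal_mul, RCLike.re_ofReal_mul]
    positivity
  have hsub : convexHull ℝ (Set.range fun n : ℕ => (fun z => ζ • A (ζ • A z))^[n] x) ⊆ H := by
    refine convexHull_min ?_ hHconv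
    rintro _ ⟨n, rfl⟩
    simp only [H, Set.mem_ofPred_eq]
    rw [hiter]
    exact hβn n _ (by positivity)
  have huniv : H = Set.univ := by
    have h1 : Dense H := hx.mono hsub
    rw [← hHclosed.closure_eq]
    exact h1.closure_eq
  obtain ⟨z0, hz0⟩ := hf1
  have h1 : (-(starRingEnd 𝕜) β) • z0 ∈ H := by rw [huniv]; trivial
  simp only [H, Set.mem_ofPred_eq] at h1
  rw [map_smul, hz0, smul_eq_mul, mul_one, mul_neg, RCLike.mul_conj, map_neg] at h1
  have h2 : RCLike.re ((‖β‖ : 𝕜) ^ 2) = ‖β‖ ^ 2 := by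
    rw [← RCLike.ofReal_pow, RCLike.ofReal_re]
  rw [h2] at h1
  have h3 : 0 < ‖β‖ ^ 2 := by positivity
  linarith

/-- The common core: a suitable scalar `ζ` gives the operator. -/
lemma core [CompleteSpace X] [TopologicalSpace.SeparableSpace X] [Nontrivial X]
    (ζ : 𝕜) (h4 : ζ ^ 4 = 1) (hζ : ∀ c : 𝕜, c ≠ 0 → ∃ r : ℕ, 0 < RCLike.re (ζ ^ r * c))
    (hζ' : ∀ c : 𝕜, ∃ β : 𝕜, β ≠ 0 ∧ ∀ n : ℕ, ∀ t : ℝ, 0 ≤ t →
      0 ≤ RCLike.re (β * ((ζ ^ 2) ^ n * (t : 𝕜) * c))) :
    ∃ S : X →L[𝕜] X, ConvexCyclic (S : X → X) ∧ ¬ ConvexCyclic ((S ^ 2 : X →L[𝕜] X) : X → X) := by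
  obtain ⟨A, μ, v, f0, h1, h2, h3, h5, h6, h7⟩ := exists_operator (𝕜 := 𝕜) (X := X)
  refine ⟨ζ • A, ?_, ?_⟩
  · have := convexCyclic_smul A μ v h1 h2 h3 h5 ζ h4 hζ
    exact this
  · have := not_convexCyclic_sq A (μ 0) f0 h6 h7 ζ hζ'
    have he : (((ζ • A) ^ 2 : X →L[𝕜] X) : X → X) = fun z => ζ • A (ζ • A z) := by
      funext z
      rw [pow_two]
      rfl
    rw [he]
    exact this

end generic

/-- **Every nonzero separable Banach space, real or complex, carries a convex-cyclic operator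
whose square is not convex-cyclic.** -/
theorem result :
    (∀ (X : Type*) [NormedAddCommGroup X] [NormedSpace ℝ X] [CompleteSpace X]
        [TopologicalSpace.SeparableSpace X] [Nontrivial X],
      ∃ S : X →L[ℝ] X, ConvexCyclic (S : X → X) ∧
        ¬ ConvexCyclic ((S ^ 2 : X →L[ℝ] X) : X → X)) ∧
    (∀ (X : Type*) [NormedAddCommGroup X] [NormedSpace ℂ X] [CompleteSpace X]
        [TopologicalSpace.SeparableSpace X] [Nontrivial X],
      ∃ S : X →L[ℂ] X, ConvexCyclic (S : X → X) ∧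
        ¬ ConvexCyclic ((S ^ 2 : X →L[ℂ] X) : X → X)) := by
  constructor
  · intro X _ _ _ _ _
    refine core (𝕜 := ℝ) (-1) (by norm_num) ?_ ?_
    · intro c hc
      rcases lt_or_gt_of_ne hc with h | h
      · exact ⟨1, by simpa using h⟩
      · exact ⟨0, by simpa using h⟩
    · intro c
      by_cases hc : c = 0
      · exact ⟨1, one_ne_zero, fun n t ht => by simp [hc]⟩
      · refine ⟨c, hc, fun n t ht => ?_⟩
        have h1 : c * (((-1 : ℝ) ^ 2) ^ n * t * c) = c ^ 2 * t := by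
          norm_num
          ring
        have h2 : RCLike.re (c * (((-1 : ℝ) ^ 2) ^ n * (RCLike.ofReal t : ℝ) * c)) = c ^ 2 * t := by
          simpa using h1
        rw [h2]
        positivity
  · intro X _ _ _ _ _
    refine core (𝕜 := ℂ) Complex.I (by simp) ?_ ?_
    · intro c hc
      by_cases hre : c.re = 0
      · have him : c.im ≠ 0 := fun h => hc (Complex.ext hre h)
        rcases lt_or_gt_of_ne him with h | h
        · exact ⟨1, by simpa using h⟩
        · exact ⟨3, by simpa [pow_succ] using h⟩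
      · rcases lt_or_gt_of_ne hre with h | h
        · exact ⟨2, by simpa using h⟩
        · exact ⟨0, by simpa using h⟩
    · intro c
      by_cases hc : c = 0
      · exact ⟨1, one_ne_zero, fun n t ht => by simp [hc]⟩
      · refine ⟨Complex.I * (starRingEnd ℂ) c, ?_, fun n t ht => ?_⟩
        · simpa using hc
        · have h1 : Complex.I * (starRingEnd ℂ) c * ((Complex.I ^ 2) ^ n * (t : ℂ) * c)
              = Complex.I * (((-1) ^ n * t * Complex.normSq c : ℝ) : ℂ) := by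
            rw [Complex.I_sq]
            have h2 : (starRingEnd ℂ) c * c = (Complex.normSq c : ℂ) := by
              rw [mul_comm, Complex.mul_conj]
            calc Complex.I * (starRingEnd ℂ) c * ((-1) ^ n * (t : ℂ) * c)
                = Complex.I * ((-1) ^ n * (t : ℂ) * ((starRingEnd ℂ) c * c)) := by ring
              _ = _ := by rw [h2]; push_cast; ring
          have h3 : RCLike.re (Complex.I * (starRingEnd ℂ) c *
              ((Complex.I ^ 2) ^ n * (RCLike.ofReal t : ℂ) * c)) = 0 := by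
            have h5 : (Complex.I * (((-1) ^ n * t * Complex.normSq c : ℝ) : ℂ)).re = 0 := by
              rw [Complex.I_mul_re, Complex.ofReal_im, neg_zero]
            have h4 := congrArg Complex.re h1
            rw [h5] at h4
            exact h4
          rw [h3]

end Pool.Agent.Results.MP_8292e8_an.SquareNotConvexCyclic
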